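import Mathlib

/-! # MP_922b49_co, Q1: there are uncountably many classes of (-1,1,t)-threshold graphs.

Paper proof by helper90, formalised by helper958. For `7 < t' < t < 8` the class of `t` is not
contained in the class of `t'`. -/

namespace Pool.Agent.Results.MP_922b49_co.UncountablyMany

/-- The class of all (-1,1,t)-threshold graphs (on vertex sets `Fin n`): graphs with real ranks
such that distinct `v`, `w` are adjacent iff the rank sum is in `[-1,1)` or `≥ t`. -/
def C (t : ℝ) : Set (Σ n : ℕ, SimpleGraph (Fin n)) :=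
  {G | ∃ r : Fin G.1 → ℝ, ∀ v w, v ≠ w →
    (G.2.Adj v w ↔ (-1 ≤ r v + r w ∧ r v + r w < 1) ∨ t ≤ r v + r w)}

/-- The edge condition. -/
def E {K : Type*} [Field K] [LinearOrder K] (t s : K) : Prop := (-1 ≤ s ∧ s < 1) ∨ t ≤ s

section core

variable {K : Type*} [Field K] [LinearOrder K] [IsStrictOrderedRing K]

omit [IsStrictOrderedRing K] in
theorem not_E {τ s : K} : ¬ E τ s ↔ (s < -1 ∨ 1 ≤ s) ∧ s < τ := by
  unfold E
  constructor
  · intro h
    push Not at h
    refine ⟨?_, h.2⟩
    by_cases h1 : s < -1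
    · exact Or.inl h1
    · exact Or.inr (h.1 (not_lt.1 h1))
  · rintro ⟨h1, h2⟩ (⟨h3, h4⟩ | h3)
    · rcases h1 with h1 | h1
      · exact absurd h1 (not_lt.2 h3)
      · exact absurd h4 (not_lt.2 h1)
    · exact absurd h2 (not_lt.2 h3)

/-- selection of a good copy -/
theorem select {τ : K} (hτ : 7 < τ) {t : ℝ} (r : ℝ × Fin 3 → K)
    (hr : ∀ v w, v ≠ w → (E t (v.1 + w.1) ↔ E τ (r v + r w))) (x : ℝ) :
    ∃ i : Fin 3, (E t (2 * x) ↔ E τ (2 * r (x, i))) := by
  have h01 := hr (x, 0) (x, 1) (by simp)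
  have h02 := hr (x, 0) (x, 2) (by simp)
  have h12 := hr (x, 1) (x, 2) (by simp)
  simp only at h01 h02 h12
  have hx2 : x + x = 2 * x := by ring
  rw [hx2] at h01 h02 h12
  by_cases hE : E t (2 * x)
  · by_contra hcon
    push Not at hcon
    have k : ∀ i, ¬ E τ (2 * r (x, i)) := by
      intro i h
      rcases hcon i with ⟨_, h'⟩ | ⟨h', _⟩
      · exact h' h
      · exact h' hE
    have k0 := not_E.1 (k 0)
    have k1 := not_E.1 (k 1)
    have k2 := not_E.1 (k 2)
    have h01 := h01.1 hE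
    have h02 := h02.1 hE
    have h12 := h12.1 hE
    clear hcon k hr
    generalize r (x, 0) = a at *
    generalize r (x, 1) = b at *
    generalize r (x, 2) = c at *
    have key : ∀ p q : K, ((2 * p < -1 ∧ 2 * q < -1) ∨ (1 ≤ 2 * p ∧ 1 ≤ 2 * q)) →
        2 * p < τ → 2 * q < τ → ¬ E τ (p + q) := by
      intro p q h hp hq
      rw [not_E]
      rcases h with ⟨h1, h2⟩ | ⟨h1, h2⟩
      · exact ⟨Or.inl (by linarith), by linarith⟩
      · exact ⟨Or.inr (by linarith), by linarith⟩
    rcases k0 with ⟨k0 | k0, k0'⟩ <;> rcases k1 with ⟨k1 | k1, k1'⟩ <;>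
      rcases k2 with ⟨k2 | k2, k2'⟩
    · exact key a b (Or.inl ⟨k0, k1⟩) k0' k1' h01
    · exact key a b (Or.inl ⟨k0, k1⟩) k0' k1' h01
    · exact key a c (Or.inl ⟨k0, k2⟩) k0' k2' h02
    · exact key b c (Or.inr ⟨k1, k2⟩) k1' k2' h12
    · exact key b c (Or.inl ⟨k1, k2⟩) k1' k2' h12
    · exact key a c (Or.inr ⟨k0, k2⟩) k0' k2' h02
    · exact key a b (Or.inr ⟨k0, k1⟩) k0' k1' h01
    · exact key a b (Or.inr ⟨k0, k1⟩) k0' k1' h01
  · by_contra hcon
    push Not at hcon
    have k : ∀ i, E τ (2 * r (x, i)) := by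
      intro i
      rcases hcon i with ⟨h', _⟩ | ⟨_, h'⟩
      · exact absurd h' hE
      · exact h'
    have k0 := k 0
    have k1 := k 1
    have k2 := k 2
    have h01 := mt h01.2 hE
    have h02 := mt h02.2 hE
    have h12 := mt h12.2 hE
    clear hcon k hr
    generalize r (x, 0) = a at *
    generalize r (x, 1) = b at *
    generalize r (x, 2) = c at *
    have key : ∀ p q : K, (((-1 ≤ 2 * p ∧ 2 * p < 1) ∧ (-1 ≤ 2 * q ∧ 2 * q < 1)) ∨
        (τ ≤ 2 * p ∧ τ ≤ 2 * q)) → E τ (p + q) := by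
      intro p q h
      rcases h with ⟨⟨h1, h1'⟩, h2, h2'⟩ | ⟨h1, h2⟩
      · exact Or.inl ⟨by linarith, by linarith⟩
      · exact Or.inr (by linarith)
    unfold E at k0 k1 k2
    rcases k0 with k0 | k0 <;> rcases k1 with k1 | k1 <;> rcases k2 with k2 | k2
    · exact h01 (key a b (Or.inl ⟨k0, k1⟩))
    · exact h01 (key a b (Or.inl ⟨k0, k1⟩))
    · exact h02 (key a c (Or.inl ⟨k0, k2⟩))
    · exact h12 (key b c (Or.inr ⟨k1, k2⟩))
    · exact h12 (key b c (Or.inl ⟨k1, k2⟩))
    · exact h02 (key a c (Or.inr ⟨k0, k2⟩))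
    · exact h01 (key a b (Or.inr ⟨k0, k1⟩))
    · exact h01 (key a b (Or.inr ⟨k0, k1⟩))

variable {τ : K} {t : ℝ} {R : ℝ → K}

/-- class predicates -/
def isT (τ s : K) : Prop := τ ≤ 2 * s
def isP (τ s : K) : Prop := 1 ≤ 2 * s ∧ 2 * s < τ
def isZ (s : K) : Prop := -1 ≤ 2 * s ∧ 2 * s < 1
def isM (s : K) : Prop := 2 * s < -1

/-- the three versions of the 2K2 lemma -/
theorem k2ZP (hτ : 7 < τ) {u u' v v' : K} (hu : isZ u) (hu' : isZ u') (hv : isP τ v)
    (hv' : isP τ v') (h1 : E τ (u + v)) (h2 : E τ (u' + v')) (h3 : ¬ E τ (u + v'))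
    (h4 : ¬ E τ (u' + v)) : False := by
  unfold isZ isP at *
  rw [not_E] at h3 h4
  unfold E at h1 h2
  obtain ⟨hu1, hu2⟩ := hu
  obtain ⟨hu1', hu2'⟩ := hu'
  obtain ⟨hv1, hv2⟩ := hv
  obtain ⟨hv1', hv2'⟩ := hv'
  have a1 : u + v < 1 := by rcases h1 with h1 | h1 <;> linarith
  have a2 : u' + v' < 1 := by rcases h2 with h2 | h2 <;> linarith
  have a3 : 1 ≤ u + v' := by rcases h3.1 with h3 | h3 <;> linarith
  have a4 : 1 ≤ u' + v := by rcases h4.1 with h4 | h4 <;> linarith
  linarith

theorem k2ZM (hτ : 7 < τ) {u u' v v' : K} (hu : isZ u) (hu' : isZ u') (hv : isM v)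
    (hv' : isM v') (h1 : E τ (u + v)) (h2 : E τ (u' + v')) (h3 : ¬ E τ (u + v'))
    (h4 : ¬ E τ (u' + v)) : False := by
  unfold isZ isM at *
  rw [not_E] at h3 h4
  unfold E at h1 h2
  obtain ⟨hu1, hu2⟩ := hu
  obtain ⟨hu1', hu2'⟩ := hu'
  have a1 : -1 ≤ u + v := by rcases h1 with h1 | h1 <;> linarith
  have a2 : -1 ≤ u' + v' := by rcases h2 with h2 | h2 <;> linarith
  have a3 : u + v' < -1 := by rcases h3.1 with h3 | h3 <;> linarith
  have a4 : u' + v < -1 := by rcases h4.1 with h4 | h4 <;> linarith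
  linarith

theorem k2TP (hτ : 7 < τ) {u u' v v' : K} (hu : isT τ u) (hu' : isT τ u') (hv : isP τ v)
    (hv' : isP τ v') (h1 : E τ (u + v)) (h2 : E τ (u' + v')) (h3 : ¬ E τ (u + v'))
    (h4 : ¬ E τ (u' + v)) : False := by
  unfold isT isP at *
  rw [not_E] at h3 h4
  unfold E at h1 h2
  obtain ⟨hv1, hv2⟩ := hv
  obtain ⟨hv1', hv2'⟩ := hv'
  have a1 : τ ≤ u + v := by rcases h1 with h1 | h1 <;> linarith
  have a2 : τ ≤ u' + v' := by rcases h2 with h2 | h2 <;> linarith
  linarith

end core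

section main

variable {K : Type*} [Field K] [LinearOrder K] [IsStrictOrderedRing K]

/-- The heart of the argument, over an arbitrary ordered field `K`. -/
theorem core {τ : K} {t t' : ℝ} (h7 : 7 < t') (htt : t' < t) (h8 : t < 8)
    (hτ7 : 7 < τ) (hτ8 : τ < 8)
    (hfin : ∀ m n : ℕ, -(3 / 2) - τ / 2 ≤ -2 * (n : K) + m * (τ + 1) →
      -(3 / 2) - t' / 2 ≤ -2 * (n : ℝ) + m * (t' + 1))
    (R : ℝ → K) (H : ∀ x y, x ≠ y → (E t (x + y) ↔ E τ (R x + R y)))
    (Ty : ∀ x, E t (2 * x) ↔ E τ (2 * R x)) : False := by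
  -- types
  have tyC : ∀ x, t ≤ 2 * x ∨ (-1 ≤ 2 * x ∧ 2 * x < 1) → isT τ (R x) ∨ isZ (R x) := by
    intro x hx
    have := (Ty x).1 (by rcases hx with h | h; exacts [Or.inr h, Or.inl h])
    rcases this with h | h
    · exact Or.inr h
    · exact Or.inl h
  have tyI : ∀ x, (2 * x < -1 ∨ 1 ≤ 2 * x) → 2 * x < t → isP τ (R x) ∨ isM (R x) := by
    intro x hx hx2
    have h1 : ¬ E t (2 * x) := not_E.2 ⟨hx, hx2⟩
    have h2 := not_E.1 (mt (Ty x).2 h1)
    rcases h2 with ⟨h | h, h'⟩
    · exact Or.inr h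
    · exact Or.inl ⟨h, h'⟩
  have adj : ∀ x y, x ≠ y → (-1 ≤ x + y ∧ x + y < 1) ∨ t ≤ x + y → E τ (R x + R y) :=
    fun x y hne h => (H x y hne).1 h
  have nadj : ∀ x y, x ≠ y → (x + y < -1 ∨ 1 ≤ x + y) → x + y < t → ¬ E τ (R x + R y) :=
    fun x y hne h h' => mt (H x y hne).2 (not_E.2 ⟨h, h'⟩)
  -- step 2
  have opp : ∀ b d, 1/2 ≤ b → b < t/2 → d < -1/2 → -1 ≤ b + d → b + d < 1 →
      (isP τ (R b) ∧ isM (R d)) ∨ (isM (R b) ∧ isP τ (R d)) := by
    intro b d hb1 hb2 hd h1 h2
    have hbt := tyI b (Or.inr (by linarith)) (by linarith)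
    have hdt := tyI d (Or.inl (by linarith)) (by linarith)
    have hadj := adj b d (by intro h; linarith) (Or.inl ⟨h1, h2⟩)
    rcases hbt with hb | hb <;> rcases hdt with hd' | hd'
    · exfalso
      unfold isP at hb hd'
      have : ¬ E τ (R b + R d) := not_E.2 ⟨Or.inr (by linarith), by linarith⟩
      exact this hadj
    · exact Or.inl ⟨hb, hd'⟩
    · exact Or.inr ⟨hb, hd'⟩
    · exfalso
      unfold isM at hb hd'
      have : ¬ E τ (R b + R d) := not_E.2 ⟨Or.inl (by linarith), by linarith⟩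
      exact this hadj
  have notPM : ∀ s : K, isP τ s → isM s → False := by
    intro s h1 h2
    unfold isP isM at *
    linarith [h1.1]
  have notTZ : ∀ s : K, isT τ s → isZ s → False := by
    intro s h1 h2
    unfold isT isZ at *
    linarith [h2.2]
  have bstar : (∀ b, 1/2 ≤ b → b < t/2 → isP τ (R b)) ∨ (∀ b, 1/2 ≤ b → b < t/2 → isM (R b)) := by
    have h94 := opp (9/4) (-(9/4 + 9/4)/2) (by norm_num) (by linarith) (by norm_num) (by norm_num)
      (by norm_num)
    rcases h94 with ⟨hP, _⟩ | ⟨hM, _⟩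
    · left
      intro b hb1 hb2
      have e1 := opp b (-(b + 9/4)/2) hb1 hb2 (by linarith) (by linarith) (by linarith)
      have e2 := opp (9/4) (-(b + 9/4)/2) (by norm_num) (by linarith) (by linarith) (by linarith)
        (by linarith)
      rcases e1 with e1 | e1
      · exact e1.1
      · rcases e2 with e2 | e2
        · exact absurd e2.2 (fun h => notPM _ e1.2 h)
        · exact absurd e2.1 (fun h => notPM _ hP h)
    · right
      intro b hb1 hb2
      have e1 := opp b (-(b + 9/4)/2) hb1 hb2 (by linarith) (by linarith) (by linarith)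
      have e2 := opp (9/4) (-(b + 9/4)/2) (by norm_num) (by linarith) (by linarith) (by linarith)
        (by linarith)
      rcases e1 with e1 | e1
      · rcases e2 with e2 | e2
        · exact absurd e2.1 (fun h => notPM _ h hM)
        · exact absurd e2.2 (fun h => notPM _ h e1.2)
      · exact e1.1
  -- beta
  have beta : ∀ d, -t/2 - 1/2 < d → d < -1/2 →
      ∃ b, b = max (1/2) (-d - 1/2) ∧ 1/2 ≤ b ∧ b < t/2 ∧ -1/2 ≤ b + d ∧ b + d < 0 := by
    intro d hd1 hd2
    refine ⟨_, rfl, le_max_left _ _, max_lt (by linarith) (by linarith), ?_, ?_⟩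
    · have := le_max_right (1/2) (-d - 1/2); linarith
    · rcases max_cases (1/2) (-d - 1/2) with ⟨h, _⟩ | ⟨h, _⟩ <;> rw [h] <;> linarith
  have near : ∀ d, -t/2 - 1/2 < d → d < -1/2 →
      ((∀ b, 1/2 ≤ b → b < t/2 → isP τ (R b)) → isM (R d)) ∧
      ((∀ b, 1/2 ≤ b → b < t/2 → isM (R b)) → isP τ (R d)) := by
    intro d hd1 hd2
    obtain ⟨b, _, hb1, hb2, hb3, hb4⟩ := beta d hd1 hd2
    have e := opp b d hb1 hb2 hd2 (by linarith) (by linarith)
    constructor
    · intro hall
      rcases e with e | e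
      · exact e.2
      · exact absurd (hall b hb1 hb2) (fun h => notPM _ h e.1)
    · intro hall
      rcases e with e | e
      · exact absurd (hall b hb1 hb2) (fun h => notPM _ e.1 h)
      · exact e.2
  -- step 1
  have AC : ∀ a c, t/2 ≤ a → a < t - 1/2 → -1/2 ≤ c → c < 1/2 →
      ¬ (isT τ (R a) ∧ isT τ (R c)) ∧ ¬ (isZ (R a) ∧ isZ (R c)) := by
    intro a c ha1 ha2 hc1 hc2
    have hn := nadj a c (by intro h; linarith) (Or.inr (by linarith)) (by linarith)
    constructor
    · rintro ⟨h1, h2⟩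
      unfold isT at h1 h2
      exact hn (Or.inr (by linarith))
    · rintro ⟨h1, h2⟩
      unfold isZ at h1 h2
      exact hn (Or.inl ⟨by linarith, by linarith⟩)
  have hR0 : isZ (R 0) := by
    rcases tyC 0 (Or.inr ⟨by norm_num, by norm_num⟩) with h0 | h0
    swap
    · exact h0
    exfalso
    have hAZ : ∀ a, t/2 ≤ a → a < t - 1/2 → isZ (R a) := by
      intro a ha1 ha2
      rcases tyC a (Or.inl (by linarith)) with h | h
      · exact absurd ⟨h, h0⟩ (AC a 0 ha1 ha2 (by norm_num) (by norm_num)).1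
      · exact h
    have z1 := hAZ (t/2) le_rfl (by linarith)
    have z2 := hAZ (t/2 + 2) (by linarith) (by linarith)
    have z3 := hAZ (t/2 + 3) (by linarith) (by linarith)
    have hd2 := tyI (-t/2 - 2) (Or.inl (by linarith)) (by linarith)
    have p1 : E τ (R (t/2) + R (-t/2)) :=
      adj _ _ (by intro h; linarith) (Or.inl ⟨by linarith, by linarith⟩)
    have p2 : E τ (R (t/2 + 2) + R (-t/2 - 2)) :=
      adj _ _ (by intro h; linarith) (Or.inl ⟨by linarith, by linarith⟩)
    have p3 : ¬ E τ (R (t/2) + R (-t/2 - 2)) :=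
      nadj _ _ (by intro h; linarith) (Or.inl (by linarith)) (by linarith)
    have p4 : ¬ E τ (R (t/2 + 2) + R (-t/2)) :=
      nadj _ _ (by intro h; linarith) (Or.inr (by linarith)) (by linarith)
    have p5 : E τ (R (t/2 + 3) + R (t/2 - 3)) :=
      adj _ _ (by intro h; linarith) (Or.inr (by linarith))
    have p6 : ¬ E τ (R (t/2 + 2) + R (t/2 - 3)) :=
      nadj _ _ (by intro h; linarith) (Or.inr (by linarith)) (by linarith)
    have p7 : ¬ E τ (R (t/2 + 3) + R (-t/2 - 2)) :=
      nadj _ _ (by intro h; linarith) (Or.inr (by linarith)) (by linarith)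
    have nd1 := near (-t/2) (by linarith) (by linarith)
    rcases bstar with hB | hB
    · have q1 := nd1.1 hB
      have q3 := hB (t/2 - 3) (by linarith) (by linarith)
      rcases hd2 with q2 | q2
      · exact k2ZP hτ7 z2 z3 q2 q3 p2 p5 p6 p7
      · exact k2ZM hτ7 z1 z2 q1 q2 p1 p2 p3 p4
    · have q1 := nd1.2 hB
      have q3 := hB (t/2 - 3) (by linarith) (by linarith)
      rcases hd2 with q2 | q2
      · exact k2ZP hτ7 z1 z2 q1 q2 p1 p2 p3 p4
      · exact k2ZM hτ7 z2 z3 q2 q3 p2 p5 p6 p7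
  have hA : ∀ a, t/2 ≤ a → a < t - 1/2 → isT τ (R a) := by
    intro a ha1 ha2
    rcases tyC a (Or.inl (by linarith)) with h | h
    · exact h
    · exact absurd ⟨h, hR0⟩ (AC a 0 ha1 ha2 (by norm_num) (by norm_num)).2
  have hC : ∀ c, -1/2 ≤ c → c < 1/2 → isZ (R c) := by
    intro c hc1 hc2
    rcases tyC c (Or.inr ⟨by linarith, by linarith⟩) with h | h
    · exact absurd ⟨hA (t/2) le_rfl (by linarith), h⟩ (AC (t/2) c le_rfl (by linarith) hc1 hc2).1
    · exact h
  -- step 4
  have hB : ∀ b, 1/2 ≤ b → b < t/2 → isP τ (R b) := by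
    rcases bstar with hB | hB
    · exact hB
    exfalso
    have a1 := hA (t/2) le_rfl (by linarith)
    have d1 := (near (-t/2) (by linarith) (by linarith)).2 hB
    have d2 := (near (1 - t/2) (by linarith) (by linarith)).2 hB
    have p1 : E τ (R (t/2) + R (-t/2)) :=
      adj _ _ (by intro h; linarith) (Or.inl ⟨by linarith, by linarith⟩)
    have p2 : E τ (R (3*t/2 - 1) + R (1 - t/2)) :=
      adj _ _ (by intro h; linarith) (Or.inr (by linarith))
    have p3 : ¬ E τ (R (t/2) + R (1 - t/2)) :=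
      nadj _ _ (by intro h; linarith) (Or.inr (by linarith)) (by linarith)
    have p4 : ¬ E τ (R (3*t/2 - 1) + R (-t/2)) :=
      nadj _ _ (by intro h; linarith) (Or.inr (by linarith)) (by linarith)
    rcases tyC (3*t/2 - 1) (Or.inl (by linarith)) with hw | hw
    · exact k2TP hτ7 a1 hw d1 d2 p1 p2 p3 p4
    · have p5 : E τ (R (3*t/2 - 1) + R (t/2)) :=
        adj _ _ (by intro h; linarith) (Or.inr (by linarith))
      have p6 := not_E.1 (nadj (t/2) 0 (by intro h; linarith) (Or.inr (by linarith)) (by linarith))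
      have p7 := not_E.1 (nadj 0 (1 - t/2) (by intro h; linarith) (Or.inl (by linarith))
        (by linarith))
      unfold isT isZ isP at *
      unfold E at p5 p2
      have r1 : τ ≤ R (3*t/2 - 1) + R (t/2) := by rcases p5 with h | h <;> linarith
      have r2 : R (3*t/2 - 1) + R (1 - t/2) < 1 := by rcases p2 with h | h <;> linarith
      have r3 : 1 ≤ R 0 + R (1 - t/2) := by rcases p7.1 with h | h <;> linarith
      linarith [p6.2]
  have hD : ∀ d, -t/2 - 1/2 < d → d < -1/2 → isM (R d) := fun d h1 h2 => (near d h1 h2).1 hB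
  -- step 6
  have mono : ∀ b b', 1/2 ≤ b → b < b' → b' < t/2 → R b < R b' := by
    intro b b' h1 h2 h3
    have a1 := hA (t - b') (by linarith) (by linarith)
    have q1 := hB b h1 (by linarith)
    have q2 := hB b' (by linarith) h3
    have p1 := adj (t - b') b' (by intro h; linarith) (Or.inr (by linarith))
    have p2 := not_E.1 (nadj (t - b') b (by intro h; linarith) (Or.inr (by linarith))
      (by linarith))
    unfold E at p1
    unfold isT isP at *
    have r1 : τ ≤ R (t - b') + R b' := by rcases p1 with h | h <;> linarith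
    linarith [p2.2]
  -- step 7
  have up : ∀ p d, 1/2 ≤ p → p < t - 1/2 → -t/2 - 1/2 < d → d < -1/2 → 1 ≤ p + d → p + d < t →
      1 ≤ R p + R d := by
    intro p d hp1 hp2 hd1 hd2 h1 h2
    obtain ⟨b, _, hb1, hb2, hb3, hb4⟩ := beta d hd1 hd2
    have q1 := hB b hb1 hb2
    have q2 := hD d hd1 hd2
    have p1 := adj b d (by intro h; linarith) (Or.inl ⟨by linarith, by linarith⟩)
    have p2 := not_E.1 (nadj p d (by intro h; linarith) (Or.inr h1) h2)
    have hlt : R b < R p := by
      by_cases hpt : p < t/2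
      · exact mono b p hb1 (by linarith) hpt
      · have := hA p (not_lt.1 hpt) hp2
        unfold isT isP at *
        linarith
    unfold E at p1
    unfold isP isM at *
    have r1 : -1 ≤ R b + R d := by rcases p1 with h | h <;> linarith
    rcases p2.1 with h | h
    · linarith
    · exact h
  have lo : ∀ b d, 1/2 ≤ b → b < t/2 → -t/2 - 1/2 < d → d < -1/2 → b + d < -1 →
      R b + R d < -1 := by
    intro p d hp1 hp2 hd1 hd2 h1
    obtain ⟨b, _, hb1, hb2, hb3, hb4⟩ := beta d hd1 hd2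
    have q1 := hB b hb1 hb2
    have q2 := hD d hd1 hd2
    have p1 := adj b d (by intro h; linarith) (Or.inl ⟨by linarith, by linarith⟩)
    have p2 := not_E.1 (nadj p d (by intro h; linarith) (Or.inl h1) (by linarith))
    have hlt : R p < R b := mono p b hp1 (by linarith) hb2
    unfold E at p1
    unfold isP isM at *
    have r1 : R b + R d < 1 := by rcases p1 with h | h <;> linarith
    rcases p2.1 with h | h
    · exact h
    · linarith
  -- epsilon
  obtain ⟨ε, hε0, hε1, hε2⟩ : ∃ ε : ℝ, 0 < ε ∧ ε < 1/4 ∧ (2 + ε) * (t' + 1) < 2 * (t + 1) := by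
    refine ⟨(t - t') / 9, by linarith, by linarith, ?_⟩
    nlinarith
  -- sum at least one
  have sum1' : ∀ q, -t/2 - 1/2 < q → q ≤ 1/2 → 1 - q < t - 1/2 → 1 ≤ R q + R (1 - q) := by
    intro q hq1 hq2 hq3
    rcases eq_or_lt_of_le hq2 with h | h
    · subst h
      have := hB (1/2) le_rfl (by linarith)
      unfold isP at this
      have e : (1:ℝ) - 1/2 = 1/2 := by norm_num
      rw [e]
      linarith
    · by_cases hc : -1/2 ≤ q
      · have q1 := hC q hc h
        have q2 := hB (1 - q) (by linarith) (by linarith)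
        have p2 := not_E.1 (nadj q (1 - q) (by intro h; linarith) (Or.inr (by linarith))
          (by linarith))
        unfold isZ isP at *
        rcases p2.1 with h | h
        · linarith
        · exact h
      · rw [add_comm]
        exact up (1 - q) q (by linarith) hq3 hq1 (by linarith) (by linarith) (by linarith)
  have sum1 : ∀ x, -t/2 - ε ≤ x → x < t/2 + 1 - ε → 1 ≤ R x + R (1 - x) := by
    intro x hx1 hx2
    by_cases hx : x ≤ 1/2
    · exact sum1' x (by linarith) hx (by linarith)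
    · have := sum1' (1 - x) (by linarith) (by linarith) (by linarith)
      have e : 1 - (1 - x) = x := by ring
      rw [e] at this
      linarith
  have posAB : ∀ p, 1/2 ≤ p → p < t - 1/2 → 1 ≤ 2 * R p := by
    intro p h1 h2
    by_cases hp : p < t/2
    · exact (hB p h1 hp).1
    · have := hA p (not_lt.1 hp) h2
      unfold isT at this
      linarith
  have stepUp : ∀ x, -t/2 - ε ≤ x → x < 2 - t/2 → R (x + t - 1 - ε) < R x + τ - 1 := by
    intro x hx1 hx2
    have s1 := sum1 x hx1 (by linarith)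
    have b1 := posAB (1 - x) (by linarith) (by linarith)
    have b2 := posAB (x + t - 1 - ε) (by linarith) (by linarith)
    by_cases he : 1 - x = x + t - 1 - ε
    · have q := hB (1 - x) (by linarith) (by linarith)
      unfold isP at q
      rw [← he]
      linarith [q.2]
    · have p2 := not_E.1 (nadj (1 - x) (x + t - 1 - ε) he (Or.inr (by linarith)) (by linarith))
      linarith [p2.2]
  have down' : ∀ y z, -t/2 - 1/2 < y → -t/2 - 1/2 < z → z < t/2 → y < -1/2 → y + z < -1 →
      y ≠ z → R y + R z < -1 := by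
    intro y z hy hz hz2 hy2 hs hne
    have q1 := hD y hy hy2
    by_cases h1 : z < -1/2
    · have q2 := hD z hz h1
      unfold isM at *
      linarith
    · by_cases h2 : z < 1/2
      · have q2 := hC z (not_lt.1 h1) h2
        have p2 := not_E.1 (nadj y z hne (Or.inl hs) (by linarith))
        unfold isM isZ at *
        rcases p2.1 with h | h
        · exact h
        · linarith
      · rw [add_comm]
        exact lo z y (not_lt.1 h2) hz2 hy hy2 (by linarith)
  have stepDown : ∀ x, 2 - t/2 ≤ x → x < t/2 + 1 - ε → R (x - 2 - ε) < R x - 2 := by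
    intro x hx1 hx2
    have s1 := sum1 x (by linarith) hx2
    have key : R (1 - x) + R (x - 2 - ε) < -1 := by
      by_cases he : 1 - x = x - 2 - ε
      · have q := hD (1 - x) (by linarith) (by linarith)
        rw [← he]
        unfold isM at q
        linarith
      · by_cases h1 : 1 - x < -1/2
        · exact down' _ _ (by linarith) (by linarith) (by linarith) h1 (by linarith) he
        · rw [add_comm]
          exact down' _ _ (by linarith) (by linarith) (by linarith) (by linarith) (by linarith)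
            (Ne.symm he)
    linarith
  -- step 9
  have lower : ∀ x, -t/2 - ε ≤ x → x < t/2 + 1 - ε → -1 - τ/2 ≤ R x := by
    intro x hx1 hx2
    by_cases h1 : x < -1/2
    · obtain ⟨b, _, hb1, hb2, hb3, hb4⟩ := beta x (by linarith) h1
      have q1 := hB b hb1 hb2
      have q2 := hD x (by linarith) h1
      have p1 := adj b x (by intro h; linarith) (Or.inl ⟨by linarith, by linarith⟩)
      unfold E at p1
      unfold isP isM at *
      have r1 : -1 ≤ R b + R x := by rcases p1 with h | h <;> linarith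
      linarith
    · by_cases h2 : x < 1/2
      · have := hC x (not_lt.1 h1) h2
        unfold isZ at this
        linarith
      · have := posAB x (not_lt.1 h2) (by linarith)
        linarith
  -- step 10
  have seq : ∀ n : ℕ, ∃ m : ℕ, -t/2 - ε ≤ -(n:ℝ) * (2 + ε) + m * (t + 1) ∧
      -(n:ℝ) * (2 + ε) + m * (t + 1) < t/2 + 1 - ε ∧
      R (-(n:ℝ) * (2 + ε) + m * (t + 1)) ≤ R 0 - 2 * n + m * (τ + 1) := by
    intro n
    induction n with
    | zero =>
      refine ⟨0, by norm_num; linarith, by norm_num; linarith, ?_⟩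
      simp
    | succ n ih =>
      obtain ⟨m, h1, h2, h3⟩ := ih
      set x := -(n:ℝ) * (2 + ε) + m * (t + 1) with hx
      by_cases hc : x < 2 - t/2
      · refine ⟨m + 1, ?_⟩
        have e : -((n + 1 : ℕ):ℝ) * (2 + ε) + ((m + 1 : ℕ):ℝ) * (t + 1) = x + t - 1 - ε := by
          rw [hx]; push_cast; ring
        rw [e]
        refine ⟨by linarith, by linarith, ?_⟩
        have := stepUp x h1 hc
        push_cast
        linarith
      · refine ⟨m, ?_⟩
        have e : -((n + 1 : ℕ):ℝ) * (2 + ε) + (m:ℝ) * (t + 1) = x - 2 - ε := by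
          rw [hx]; push_cast; ring
        rw [e]
        refine ⟨by linarith, by linarith, ?_⟩
        have := stepDown x (not_lt.1 hc) h2
        push_cast
        linarith
  -- final
  have fin : ∀ n : ℕ, -(3/2) - t'/2 ≤ -2 * (n:ℝ) + (t/2 + 1 + n * (2 + ε)) / (t + 1) * (t' + 1) := by
    intro n
    obtain ⟨m, h1, h2, h3⟩ := seq n
    have h4 := lower _ h1 h2
    have h5 : R 0 < 1/2 := by
      have := hR0.2
      linarith
    have h6 := hfin m n (by linarith)
    have h7' : (m:ℝ) ≤ (t/2 + 1 + n * (2 + ε)) / (t + 1) := by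
      rw [le_div_iff₀ (by linarith)]
      linarith
    have := mul_le_mul_of_nonneg_right h7' (by linarith : (0:ℝ) ≤ t' + 1)
    linarith
  have hgap : 0 < 2 - (2 + ε) * (t' + 1) / (t + 1) := by
    rw [sub_pos, div_lt_iff₀ (by linarith)]
    exact hε2
  obtain ⟨n, hn⟩ := exists_nat_gt ((3/2 + t'/2 + (t/2 + 1) / (t + 1) * (t' + 1)) /
    (2 - (2 + ε) * (t' + 1) / (t + 1)))
  rw [div_lt_iff₀ hgap] at hn
  have h9 := fin n
  have e : (t/2 + 1 + n * (2 + ε)) / (t + 1) * (t' + 1) =
      (t/2 + 1) / (t + 1) * (t' + 1) + n * ((2 + ε) * (t' + 1) / (t + 1)) := by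
    field_simp
  rw [e] at h9
  nlinarith

end main

section ultra

open Filter

/-- no containment -/
theorem not_sub {t t' : ℝ} (h7 : 7 < t') (htt : t' < t) (h8 : t < 8) : ¬ C t ⊆ C t' := by
  intro hsub
  -- ranks for every finite set
  have hF : ∀ F : Finset (ℝ × Fin 3), ∃ r : ℝ × Fin 3 → ℝ, ∀ v ∈ F, ∀ w ∈ F, v ≠ w →
      (E t (v.1 + w.1) ↔ E t' (r v + r w)) := by
    intro F
    let e := F.equivFin
    let G : SimpleGraph (Fin F.card) :=
      { Adj := fun i j => i ≠ j ∧ E t ((e.symm i).1.1 + (e.symm j).1.1)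
        symm := ⟨fun i j h => ⟨h.1.symm, by rw [add_comm]; exact h.2⟩⟩
        loopless := ⟨fun i h => h.1 rfl⟩ }
    have hG : (⟨F.card, G⟩ : Σ n : ℕ, SimpleGraph (Fin n)) ∈ C t := by
      refine ⟨fun i => (e.symm i).1.1, ?_⟩
      intro v w hvw
      change (v ≠ w ∧ _) ↔ _
      constructor
      · intro h; exact h.2
      · intro h; exact ⟨hvw, h⟩
    obtain ⟨r, hr⟩ := hsub hG
    classical
    refine ⟨fun v => if h : v ∈ F then r (e ⟨v, h⟩) else 0, ?_⟩
    intro v hv w hw hvw
    have hne : e ⟨v, hv⟩ ≠ e ⟨w, hw⟩ := by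
      intro h
      exact hvw (by simpa using e.injective h)
    have := hr (e ⟨v, hv⟩) (e ⟨w, hw⟩) hne
    simp only [hv, hw, dif_pos]
    rw [E, E]
    rw [← this]
    change _ ↔ (e ⟨v, hv⟩ ≠ e ⟨w, hw⟩ ∧ E t _)
    simp only [Equiv.symm_apply_apply]
    constructor
    · intro h; exact ⟨hne, h⟩
    · intro h; exact h.2
  choose r hr using hF
  let U : Ultrafilter (Finset (ℝ × Fin 3)) := Ultrafilter.of atTop
  let K := Germ (U : Filter (Finset (ℝ × Fin 3))) ℝ
  let ρ : ℝ × Fin 3 → K := fun v => ((fun F => r F v : Finset (ℝ × Fin 3) → ℝ) : K)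
  let τ : K := ((t' : ℝ) : K)
  have hE : ∀ v w, v ≠ w → (E t (v.1 + w.1) ↔ E τ (ρ v + ρ w)) := by
    intro v w hvw
    have hev : ∀ᶠ F in (U : Filter (Finset (ℝ × Fin 3))),
        (E t (v.1 + w.1) ↔ E t' (r F v + r F w)) := by
      have h1 : ∀ᶠ F in (atTop : Filter (Finset (ℝ × Fin 3))), {v, w} ⊆ F :=
        eventually_ge_atTop _
      have h2 := (Ultrafilter.of_le (atTop : Filter (Finset (ℝ × Fin 3)))) h1
      filter_upwards [h2] with F hF
      exact hr F v (hF (by simp)) w (hF (by simp)) hvw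
    have hiff : E τ (ρ v + ρ w) ↔ ∀ᶠ F in (U : Filter (Finset (ℝ × Fin 3))),
        E t' (r F v + r F w) := by
      have c1 : ((-1 : K) ≤ ρ v + ρ w) ↔ ∀ᶠ F in (U : Filter (Finset (ℝ × Fin 3))),
          -1 ≤ r F v + r F w :=
        Germ.coe_le (f := fun _ => (-1:ℝ)) (g := fun F => r F v + r F w)
      have c2 : (ρ v + ρ w < (1 : K)) ↔ ∀ᶠ F in (U : Filter (Finset (ℝ × Fin 3))),
          r F v + r F w < 1 :=
        Germ.coe_lt (f := fun F => r F v + r F w) (g := fun _ => (1:ℝ))
      have c3 : (τ ≤ ρ v + ρ w) ↔ ∀ᶠ F in (U : Filter (Finset (ℝ × Fin 3))),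
          t' ≤ r F v + r F w :=
        Germ.coe_le (f := fun _ => t') (g := fun F => r F v + r F w)
      unfold E
      rw [Ultrafilter.eventually_or, eventually_and, c1, c2, c3]
    rw [hiff]
    constructor
    · intro h
      filter_upwards [hev] with F hF using hF.1 h
    · intro h
      obtain ⟨F, hF⟩ := (hev.and h).exists
      exact hF.1.2 hF.2
  have hτ7 : (7 : K) < τ := Germ.const_lt (φ := U) h7
  have hτ8 : τ < (8 : K) := Germ.const_lt (φ := U) (lt_trans htt h8)
  choose i hi using select hτ7 ρ hE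
  refine core (K := K) (τ := τ) h7 htt h8 hτ7 hτ8 ?_ (fun x => ρ (x, i x)) ?_ ?_
  · intro m n h
    have e1 : (-(3 / 2) - τ / 2 : K) = ((-(3 / 2) - t' / 2 : ℝ) : K) := rfl
    have e2 : (-2 * (n : K) + m * (τ + 1) : K) = ((-2 * (n : ℝ) + m * (t' + 1) : ℝ) : K) := rfl
    rw [e1, e2] at h
    exact Germ.const_le_iff.1 h
  · intro x y hxy
    exact hE (x, i x) (y, i y) (by intro h; exact hxy (congrArg Prod.fst h))
  · intro x
    exact hi x

end ultra

/-- **Theorem.** The set `{C_t : t > 1}` is uncountable. -/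
theorem result : ¬ (C '' Set.Ioi 1).Countable := by
  intro h
  have hinj : Set.InjOn C (Set.Ioo (7:ℝ) 8) := by
    intro a ha b hb hab
    rcases lt_trichotomy a b with hlt | heq | hlt
    · exact absurd hab.ge (not_sub ha.1 hlt hb.2)
    · exact heq
    · exact absurd hab.le (not_sub hb.1 hlt ha.2)
  have hc : (C '' Set.Ioo (7:ℝ) 8).Countable :=
    h.mono (Set.image_mono (fun x hx => lt_trans (by norm_num) hx.1))
  have := (Set.countable_of_injective_of_countable_image hinj hc)
  have h2 := this.measure_zero MeasureTheory.volume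
  rw [Real.volume_Ioo] at h2
  norm_num at h2

end Pool.Agent.Results.MP_922b49_co.UncountablyMany
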